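import Pool.Agent.SPX.Stmts

/-!
# Row ATM of table spx: an atom of a spectral measure is an eigenvalue
-/

set_option autoImplicit false

open MeasureTheory ProbabilityTheory Filter

open scoped InnerProductSpace ENNReal Topology ComplexConjugate

noncomputable section

namespace Pool.Agent.SPX.H67

open Pool.Agent.Anderson Pool.Agent.Loc Pool.Agent.Helper54.Bal

variable {d : ℕ}

/-- the spectral parameter -/
def zn (E : ℝ) (n : ℕ) : ℂ := ⟨E, 1 / ((n : ℝ) + 1)⟩

/-- the approximations of the projection -/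
def fn (V : Site d → ℝ) (E : ℝ) (u : L2 d) (n : ℕ) : L2 d :=
  (-(Complex.I * ((1 / ((n : ℝ) + 1) : ℝ) : ℂ))) • G V (zn E n) u

/-- the same functions on the spectral side -/
def ph (E : ℝ) (n : ℕ) (t : ℝ) : ℂ :=
  -(Complex.I * ((1 / ((n : ℝ) + 1) : ℝ) : ℂ)) * ((t : ℂ) - zn E n)⁻¹

theorem eta_pos (n : ℕ) : (0 : ℝ) < 1 / ((n : ℝ) + 1) := by positivity

theorem zn_im (E : ℝ) (n : ℕ) : (zn E n).im = 1 / ((n : ℝ) + 1) := rfl

theorem zn_im_ne (E : ℝ) (n : ℕ) : (zn E n).im ≠ 0 := (eta_pos n).ne'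

theorem sub_ne (E : ℝ) (n : ℕ) (t : ℝ) : (t : ℂ) - zn E n ≠ 0 := by
  intro h
  have := congrArg Complex.im h
  rw [Complex.sub_im, Complex.ofReal_im, zn_im, Complex.zero_im] at this
  have := eta_pos n
  linarith

theorem sub_conj_ne (E : ℝ) (n : ℕ) (t : ℝ) : (t : ℂ) - conj (zn E n) ≠ 0 := by
  intro h
  have := congrArg Complex.im h
  rw [Complex.sub_im, Complex.ofReal_im, Complex.conj_im, zn_im, Complex.zero_im] at this
  have := eta_pos n
  linarith

theorem ph_meas (E : ℝ) (n : ℕ) : Measurable (ph E n) := by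
  unfold ph
  fun_prop

theorem ph_norm (E : ℝ) (n : ℕ) (t : ℝ) : ‖ph E n t‖ ≤ 1 := by
  unfold ph
  rw [norm_mul, norm_neg, norm_mul, Complex.norm_I, one_mul, Complex.norm_real, norm_inv,
    Real.norm_eq_abs, abs_of_pos (eta_pos n)]
  have h1 : 1 / ((n : ℝ) + 1) ≤ ‖(t : ℂ) - zn E n‖ := by
    have h2 := Complex.abs_im_le_norm ((t : ℂ) - zn E n)
    rw [Complex.sub_im, Complex.ofReal_im, zn_im, zero_sub, abs_neg, abs_of_pos (eta_pos n)] at h2
    exact h2
  have h2 : 0 < ‖(t : ℂ) - zn E n‖ := (eta_pos n).trans_le h1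
  rw [← div_eq_mul_inv, div_le_one h2]
  exact h1

/-- the limit of `ph` -/
def ph0 (E t : ℝ) : ℂ := if t = E then 1 else 0

theorem ph_tendsto (E t : ℝ) : Tendsto (fun n => ph E n t) atTop (𝓝 (ph0 E t)) := by
  have h0 : Tendsto (fun n : ℕ => ((1 / ((n : ℝ) + 1) : ℝ) : ℂ)) atTop (𝓝 ((0 : ℝ) : ℂ)) :=
    (Complex.continuous_ofReal.tendsto 0).comp tendsto_one_div_add_atTop_nhds_zero_nat
  have hz : ∀ n, zn E n = (E : ℂ) + ((1 / ((n : ℝ) + 1) : ℝ) : ℂ) * Complex.I := by
    intro n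
    unfold zn
    rw [Complex.mk_eq_add_mul_I]
  by_cases h : t = E
  · subst h
    have h1 : ∀ n, ph t n t = 1 := by
      intro n
      unfold ph
      have h3 : ((1 / ((n : ℝ) + 1) : ℝ) : ℂ) ≠ 0 := by
        exact_mod_cast (eta_pos n).ne'
      have h4 : (t : ℂ) - zn t n = -(Complex.I * ((1 / ((n : ℝ) + 1) : ℝ) : ℂ)) := by
        rw [hz n]
        ring
      rw [h4]
      exact mul_inv_cancel₀ (neg_ne_zero.2 (mul_ne_zero Complex.I_ne_zero h3))
    simp only [h1, ph0, if_true]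
    exact tendsto_const_nhds
  · unfold ph0
    rw [if_neg h]
    have hne : (t : ℂ) - (E : ℂ) ≠ 0 := by
      rw [sub_ne_zero]
      exact_mod_cast h
    have h1 : Tendsto (fun n : ℕ => (t : ℂ) - zn E n) atTop (𝓝 ((t : ℂ) - (E : ℂ))) := by
      have h2 : Tendsto (fun n : ℕ => (E : ℂ) + ((1 / ((n : ℝ) + 1) : ℝ) : ℂ) * Complex.I) atTop
          (𝓝 ((E : ℂ) + ((0 : ℝ) : ℂ) * Complex.I)) := (h0.mul_const _).const_add _
      have h3 : (E : ℂ) + ((0 : ℝ) : ℂ) * Complex.I = (E : ℂ) := by simp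
      rw [h3] at h2
      simp only [hz]
      exact h2.const_sub _
    have h2 := h1.inv₀ hne
    have h3 : Tendsto (fun n : ℕ => -(Complex.I * ((1 / ((n : ℝ) + 1) : ℝ) : ℂ))) atTop
        (𝓝 (-(Complex.I * ((0 : ℝ) : ℂ)))) := (h0.const_mul _).neg
    have h4 := h3.mul h2
    have h5 : -(Complex.I * ((0 : ℝ) : ℂ)) * ((t : ℂ) - (E : ℂ))⁻¹ = 0 := by simp
    rw [h5] at h4
    exact h4

theorem inner_fn {V : Site d → ℝ} {u : L2 d} {μ : Measure ℝ} (E : ℝ) (h : SpecM V u μ)
    (n m : ℕ) : ⟪fn V E u n, fn V E u m⟫_ℂ = ∫ t, conj (ph E n t) * ph E m t ∂μ := by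
  haveI := h.1
  have hn := zn_im_ne E n
  have hn' := conj_im_ne hn
  have hm := zn_im_ne E m
  have h1 : ⟪G V (zn E n) u, G V (zn E m) u⟫_ℂ = ⟪u, G V (conj (zn E n)) (G V (zn E m) u)⟫_ℂ :=
    (isRes_G V).adj _ hn _ _
  have h2 := (isRes_G V).ident_apply hn' hm u
  have h3 : ⟪u, G V (conj (zn E n)) u⟫_ℂ - ⟪u, G V (zn E m) u⟫_ℂ =
      (conj (zn E n) - zn E m) * ⟪u, G V (conj (zn E n)) (G V (zn E m) u)⟫_ℂ := by
    rw [← inner_sub_right, h2, inner_smul_right]
  have h4 : conj (zn E n) - zn E m ≠ 0 := by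
    intro h0
    have := congrArg Complex.im h0
    rw [Complex.sub_im, Complex.conj_im, zn_im, zn_im, Complex.zero_im] at this
    have := eta_pos n
    have := eta_pos m
    linarith
  have hint : ∀ z : ℂ, z.im ≠ 0 → Integrable (fun t : ℝ => ((t : ℂ) - z)⁻¹) μ := by
    intro z hz
    refine Integrable.of_bound (C := |z.im|⁻¹) (by fun_prop) (Eventually.of_forall fun t => ?_)
    rw [norm_inv]
    refine inv_anti₀ (abs_pos.2 hz) ?_
    have := Complex.abs_im_le_norm ((t : ℂ) - z)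
    rwa [Complex.sub_im, Complex.ofReal_im, zero_sub, abs_neg] at this
  have h5 : (conj (zn E n) - zn E m) * ⟪G V (zn E n) u, G V (zn E m) u⟫_ℂ =
      (conj (zn E n) - zn E m) *
        ∫ t : ℝ, ((t : ℂ) - conj (zn E n))⁻¹ * ((t : ℂ) - zn E m)⁻¹ ∂μ := by
    rw [h1, ← h3, h.2 _ hn', h.2 _ hm, ← integral_sub (hint _ hn') (hint _ hm),
      ← integral_const_mul]
    refine integral_congr_ae (Eventually.of_forall fun t => ?_)
    have a1 := sub_conj_ne E n t
    have a2 := sub_ne E m t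
    dsimp only
    field_simp
    ring
  have h6 := mul_left_cancel₀ h4 h5
  unfold fn
  rw [inner_smul_left, inner_smul_right, h6, ← integral_const_mul, ← integral_const_mul]
  refine integral_congr_ae (Eventually.of_forall fun t => ?_)
  unfold ph
  simp only [map_mul, map_neg, Complex.conj_ofReal, map_inv₀, map_sub]
  ring

theorem ph_int {μ : Measure ℝ} [IsFiniteMeasure μ] (E : ℝ) (n : ℕ) : Integrable (ph E n) μ :=
  Integrable.of_bound (C := 1) (ph_meas E n).aestronglyMeasurable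
    (Eventually.of_forall fun t => ph_norm E n t)

theorem ph_int2 {μ : Measure ℝ} [IsFiniteMeasure μ] (E : ℝ) (n m : ℕ) :
    Integrable (fun t => conj (ph E n t) * ph E m t) μ := by
  refine Integrable.of_bound (C := 1) ?_ (Eventually.of_forall fun t => ?_)
  · exact ((Complex.continuous_conj.measurable.comp (ph_meas E n)).mul
      (ph_meas E m)).aestronglyMeasurable
  · rw [norm_mul, Complex.norm_conj]
    have h1 := ph_norm E n t
    have h2 := ph_norm E m t
    have h3 := norm_nonneg (ph E n t)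
    have h4 := norm_nonneg (ph E m t)
    nlinarith

/-- the isometry -/
theorem norm_fn {V : Site d → ℝ} {u : L2 d} {μ : Measure ℝ} (E : ℝ) (h : SpecM V u μ)
    (n m : ℕ) : ‖fn V E u n - fn V E u m‖ ^ 2 = ∫ t, ‖ph E n t - ph E m t‖ ^ 2 ∂μ := by
  haveI := h.1
  have h1 : ((‖fn V E u n - fn V E u m‖ ^ 2 : ℝ) : ℂ) =
      ⟪fn V E u n - fn V E u m, fn V E u n - fn V E u m⟫_ℂ := by
    rw [inner_self_eq_norm_sq_to_K]
    push_cast
    rfl
  have h2 : ⟪fn V E u n - fn V E u m, fn V E u n - fn V E u m⟫_ℂ =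
      ∫ t, (((‖ph E n t - ph E m t‖ ^ 2 : ℝ)) : ℂ) ∂μ := by
    rw [inner_sub_left, inner_sub_right, inner_sub_right, inner_fn E h, inner_fn E h,
      inner_fn E h, inner_fn E h, ← integral_sub (ph_int2 E n n) (ph_int2 E n m),
      ← integral_sub (ph_int2 E m n) (ph_int2 E m m)]
    have h9 := integral_sub (μ := μ) ((ph_int2 E n n).sub (ph_int2 E n m))
      ((ph_int2 E m n).sub (ph_int2 E m m))
    simp only [Pi.sub_apply] at h9
    rw [← h9]
    refine integral_congr_ae (Eventually.of_forall fun t => ?_)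
    dsimp only
    have h3 : (((‖ph E n t - ph E m t‖ ^ 2 : ℝ)) : ℂ) =
        conj (ph E n t - ph E m t) * (ph E n t - ph E m t) := by
      rw [mul_comm, Complex.mul_conj, Complex.normSq_eq_norm_sq]
    rw [h3, map_sub]
    ring
  rw [← h1, integral_complex_ofReal] at h2
  exact_mod_cast h2

/-- the distance to the limit in `L²(μ)` -/
def bn (μ : Measure ℝ) (E : ℝ) (n : ℕ) : ℝ := ∫ t, ‖ph E n t - ph0 E t‖ ^ 2 ∂μ

theorem ph0_meas (E : ℝ) : Measurable (ph0 E) := by
  unfold ph0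
  exact Measurable.ite (measurableSet_singleton E) measurable_const measurable_const

theorem ph0_norm (E t : ℝ) : ‖ph0 E t‖ ≤ 1 := by
  unfold ph0
  split_ifs <;> simp

theorem df_bound (E : ℝ) (n : ℕ) (t : ℝ) : ‖‖ph E n t - ph0 E t‖ ^ 2‖ ≤ 4 := by
  rw [Real.norm_eq_abs, abs_of_nonneg (sq_nonneg _)]
  have h1 := norm_sub_le (ph E n t) (ph0 E t)
  have h2 := ph_norm E n t
  have h3 := ph0_norm E t
  have h4 := norm_nonneg (ph E n t - ph0 E t)
  nlinarith

theorem df_meas (E : ℝ) (n : ℕ) : Measurable fun t => ‖ph E n t - ph0 E t‖ ^ 2 :=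
  (((ph_meas E n).sub (ph0_meas E)).norm).pow_const 2

theorem bn_tendsto (μ : Measure ℝ) [IsFiniteMeasure μ] (E : ℝ) :
    Tendsto (bn μ E) atTop (𝓝 0) := by
  have h := tendsto_integral_of_dominated_convergence (μ := μ)
    (F := fun n t => ‖ph E n t - ph0 E t‖ ^ 2) (f := fun _ => (0 : ℝ)) (fun _ => (4 : ℝ))
    (fun n => (df_meas E n).aestronglyMeasurable) (integrable_const _)
    (fun n => Eventually.of_forall fun t => df_bound E n t)
    (Eventually.of_forall fun t => by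
      have h1 := ((ph_tendsto E t).sub_const (ph0 E t)).norm.pow 2
      simpa using h1)
  rw [integral_zero] at h
  exact h

theorem norm_fn_le {V : Site d → ℝ} {u : L2 d} {μ : Measure ℝ} (E : ℝ) (h : SpecM V u μ)
    (n m : ℕ) : ‖fn V E u n - fn V E u m‖ ^ 2 ≤ 2 * (bn μ E n + bn μ E m) := by
  haveI := h.1
  rw [norm_fn E h, bn, bn, ← integral_add, ← integral_const_mul]
  · refine integral_mono_of_nonneg (Eventually.of_forall fun t => sq_nonneg _) ?_
      (Eventually.of_forall fun t => ?_)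
    · exact ((Integrable.of_bound (C := 4) (df_meas E n).aestronglyMeasurable
        (Eventually.of_forall fun t => df_bound E n t)).add
        (Integrable.of_bound (C := 4) (df_meas E m).aestronglyMeasurable
        (Eventually.of_forall fun t => df_bound E m t))).const_mul 2
    · dsimp only
      have h1 : ‖ph E n t - ph E m t‖ ≤ ‖ph E n t - ph0 E t‖ + ‖ph E m t - ph0 E t‖ := by
        have h2 := norm_sub_le (ph E n t - ph0 E t) (ph E m t - ph0 E t)
        rwa [sub_sub_sub_cancel_right] at h2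
      have h3 := norm_nonneg (ph E n t - ph E m t)
      nlinarith [sq_nonneg (‖ph E n t - ph0 E t‖ - ‖ph E m t - ph0 E t‖)]
  · exact Integrable.of_bound (C := 4) (df_meas E n).aestronglyMeasurable
      (Eventually.of_forall fun t => df_bound E n t)
  · exact Integrable.of_bound (C := 4) (df_meas E m).aestronglyMeasurable
      (Eventually.of_forall fun t => df_bound E m t)

theorem cauchy_fn {V : Site d → ℝ} {u : L2 d} {μ : Measure ℝ} (E : ℝ) (h : SpecM V u μ) :
    CauchySeq (fn V E u) := by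
  haveI := h.1
  rw [Metric.cauchySeq_iff']
  intro ε hε
  have h1 : ∀ᶠ n in atTop, bn μ E n < ε ^ 2 / 4 :=
    (bn_tendsto μ E).eventually_lt_const (by positivity)
  obtain ⟨N, hN⟩ := h1.exists_forall_of_atTop
  refine ⟨N, fun n hn => ?_⟩
  rw [dist_eq_norm]
  have h2 := norm_fn_le E h n N
  have h3 := hN n hn
  have h4 := hN N le_rfl
  have h5 : ‖fn V E u n - fn V E u N‖ ^ 2 < ε ^ 2 := by linarith
  exact lt_of_pow_lt_pow_left₀ 2 hε.le h5

theorem inner_u {V : Site d → ℝ} {u : L2 d} {μ : Measure ℝ} (E : ℝ) (h : SpecM V u μ)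
    (n : ℕ) : ⟪u, fn V E u n⟫_ℂ = ∫ t, ph E n t ∂μ := by
  unfold fn ph
  rw [inner_smul_right, h.2 _ (zn_im_ne E n), integral_const_mul]

theorem tendsto_int (μ : Measure ℝ) [IsFiniteMeasure μ] (E : ℝ) :
    Tendsto (fun n => ∫ t, ph E n t ∂μ) atTop (𝓝 ((μ.real {E} : ℝ) : ℂ)) := by
  have h := tendsto_integral_of_dominated_convergence (μ := μ)
    (F := fun n t => ph E n t) (f := fun t => ph0 E t) (fun _ => (1 : ℝ))
    (fun n => (ph_meas E n).aestronglyMeasurable) (integrable_const _)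
    (fun n => Eventually.of_forall fun t => ph_norm E n t)
    (Eventually.of_forall fun t => ph_tendsto E t)
  have h1 : ∫ t, ph0 E t ∂μ = ((μ.real {E} : ℝ) : ℂ) := by
    have h2 : ph0 E = Set.indicator {E} fun _ => (1 : ℂ) := by
      funext t
      unfold ph0
      by_cases ht : t = E
      · rw [if_pos ht, Set.indicator_of_mem (by exact ht)]
      · rw [if_neg ht, Set.indicator_of_notMem (by exact ht)]
    rw [h2, integral_indicator_const _ (measurableSet_singleton E)]
    simp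
  rw [h1] at h
  exact h

theorem apply_tendsto {f : ℕ → L2 d} {φ : L2 d} (h : Tendsto f atTop (𝓝 φ)) (x : Site d) :
    Tendsto (fun n => f n x) atTop (𝓝 (φ x)) := by
  rw [tendsto_iff_norm_sub_tendsto_zero] at h ⊢
  refine squeeze_zero (fun n => norm_nonneg _) (fun n => ?_) h
  have h1 := lp.norm_apply_le_norm (p := 2) (by norm_num) (f n - φ) x
  rwa [lp.coeFn_sub, Pi.sub_apply] at h1

/-- **ATM.** -/
theorem atm : AtmStmt := by
  intro d V u μ E h hE
  haveI := h.1
  obtain ⟨φ, hφ⟩ := cauchySeq_tendsto_of_complete (cauchy_fn E h)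
  refine ⟨φ, ?_, ?_⟩
  · intro x
    have h0 : Tendsto (fun n : ℕ => ((1 / ((n : ℝ) + 1) : ℝ) : ℂ)) atTop (𝓝 ((0 : ℝ) : ℂ)) :=
      (Complex.continuous_ofReal.tendsto 0).comp tendsto_one_div_add_atTop_nhds_zero_nat
    have h1 : ∀ n, lap (fn V E u n) x + ((V x : ℂ) - zn E n) * fn V E u n x =
        -(Complex.I * ((1 / ((n : ℝ) + 1) : ℝ) : ℂ)) * u x := by
      intro n
      have h2 := G_eq (V := V) (zn_im_ne E n) u x
      have h3 : lap (fn V E u n) x =
          -(Complex.I * ((1 / ((n : ℝ) + 1) : ℝ) : ℂ)) * lap (G V (zn E n) u) x := by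
        unfold fn
        rw [lp.coeFn_smul]
        exact lap_smul' _ _ _
      have h4 : fn V E u n x =
          -(Complex.I * ((1 / ((n : ℝ) + 1) : ℝ) : ℂ)) * G V (zn E n) u x := by
        unfold fn
        rw [lp.coeFn_smul, Pi.smul_apply, smul_eq_mul]
      rw [h3, h4, ← h2]
      ring
    have h5 : Tendsto (fun n => lap (fn V E u n) x + ((V x : ℂ) - zn E n) * fn V E u n x) atTop
        (𝓝 (lap φ x + ((V x : ℂ) - (E : ℂ)) * φ x)) := by
      refine Tendsto.add ?_ (Tendsto.mul ?_ (apply_tendsto hφ x))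
      · unfold lap
        exact tendsto_finsetSum _ fun i _ => (apply_tendsto hφ _).add (apply_tendsto hφ _)
      · have h6 : ∀ n, zn E n = (E : ℂ) + ((1 / ((n : ℝ) + 1) : ℝ) : ℂ) * Complex.I := by
          intro n
          unfold zn
          rw [Complex.mk_eq_add_mul_I]
        have h7 : Tendsto (fun n : ℕ => (E : ℂ) + ((1 / ((n : ℝ) + 1) : ℝ) : ℂ) * Complex.I) atTop
            (𝓝 ((E : ℂ) + ((0 : ℝ) : ℂ) * Complex.I)) := (h0.mul_const _).const_add _
        have h8 : (E : ℂ) + ((0 : ℝ) : ℂ) * Complex.I = (E : ℂ) := by simp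
        rw [h8] at h7
        simp only [h6]
        exact h7.const_sub _
    have h6 : Tendsto (fun n : ℕ => -(Complex.I * ((1 / ((n : ℝ) + 1) : ℝ) : ℂ)) * u x) atTop
        (𝓝 (-(Complex.I * ((0 : ℝ) : ℂ)) * u x)) := ((h0.const_mul _).neg).mul_const _
    have h7 : -(Complex.I * ((0 : ℝ) : ℂ)) * u x = 0 := by simp
    rw [h7] at h6
    simp only [h1] at h5
    have h8 := tendsto_nhds_unique h5 h6
    linear_combination h8
  · have h1 : Tendsto (fun n => ⟪u, fn V E u n⟫_ℂ) atTop (𝓝 ⟪u, φ⟫_ℂ) :=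
      ((innerSL ℂ u).continuous.tendsto φ).comp hφ
    simp only [inner_u E h] at h1
    have h2 := tendsto_nhds_unique h1 (tendsto_int μ E)
    intro h3
    have h4 : ⟪u, φ⟫_ℂ = 0 := by
      rw [← inner_conj_symm, h3, map_zero]
    rw [h4] at h2
    have h5 : μ.real {E} = 0 := by exact_mod_cast h2.symm
    rw [measureReal_eq_zero_iff] at h5
    exact hE h5

end Pool.Agent.SPX.H67
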